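import Mathlib

/-!
# The height of the value of a rational function, uniformly in the field (project FR, Mathlib only)
-/

set_option autoImplicit false

namespace Pool.Agent.N490.FR

open NumberField Module Polynomial Height

/-- homogenisation in degree `n` -/
noncomputable def hom {F : Type} [Field F] (n : ℕ) (P : F[X]) : MvPolynomial (Fin 2) F :=
  ∑ i ∈ Finset.range (n + 1), MvPolynomial.monomial (Finsupp.single 0 i + Finsupp.single 1 (n - i)) (P.coeff i)

theorem hom_homogeneous {F : Type} [Field F] (n : ℕ) (P : F[X]) : (hom n P).IsHomogeneous n := by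
  refine MvPolynomial.IsHomogeneous.sum _ _ _ fun i hi => ?_
  refine MvPolynomial.isHomogeneous_monomial _ ?_
  rw [Finset.mem_range] at hi
  rw [map_add, Finsupp.degree_single, Finsupp.degree_single]
  omega

theorem eval_hom {F : Type} [Field F] {n : ℕ} {P : F[X]} (h : P.natDegree ≤ n) (x : F) :
    (hom n P).eval ![x, 1] = P.eval x := by
  unfold hom
  rw [map_sum, Polynomial.eval_eq_sum_range' (Nat.lt_succ_of_le h)]
  refine Finset.sum_congr rfl fun i _ => ?_
  rw [MvPolynomial.eval_monomial, Finsupp.prod_add_index' (by simp) (by intro a b c; exact pow_add _ _ _),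
    Finsupp.prod_single_index (by simp), Finsupp.prod_single_index (by simp)]
  simp

theorem coeff_hom {F : Type} [Field F] (n : ℕ) (P : F[X]) (s : Fin 2 →₀ ℕ) :
    (hom n P).coeff s = ∑ i ∈ Finset.range (n + 1),
      if (Finsupp.single 0 i + Finsupp.single 1 (n - i) : Fin 2 →₀ ℕ) = s then P.coeff i else 0 := by
  unfold hom
  rw [MvPolynomial.coeff_sum]
  refine Finset.sum_congr rfl fun i _ => ?_
  rw [MvPolynomial.coeff_monomial]

theorem arch_hom {F : Type} [Field F] (v : AbsoluteValue F ℝ) (n : ℕ) (P : F[X]) :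
    (AddMonoidAlgebra.coeff (hom n P)).sum (fun _ c => v c) ≤ ∑ i ∈ Finset.range (n + 1), v (P.coeff i) := by
  classical
  rw [MvPolynomial.sum_def]
  calc ∑ s ∈ (hom n P).support, v ((hom n P).coeff s)
      ≤ ∑ s ∈ (hom n P).support, ∑ i ∈ Finset.range (n + 1),
        (if (Finsupp.single 0 i + Finsupp.single 1 (n - i) : Fin 2 →₀ ℕ) = s then v (P.coeff i) else 0) := by
        refine Finset.sum_le_sum fun s _ => ?_
        rw [coeff_hom]
        refine (v.sum_le _ _).trans (le_of_eq ?_)
        refine Finset.sum_congr rfl fun i _ => ?_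
        split_ifs <;> simp
    _ = ∑ i ∈ Finset.range (n + 1), ∑ s ∈ (hom n P).support,
        (if (Finsupp.single 0 i + Finsupp.single 1 (n - i) : Fin 2 →₀ ℕ) = s then v (P.coeff i) else 0) :=
        Finset.sum_comm
    _ ≤ ∑ i ∈ Finset.range (n + 1), v (P.coeff i) := by
        refine Finset.sum_le_sum fun i _ => ?_
        rw [Finset.sum_ite_eq]
        split_ifs
        · exact le_rfl
        · exact v.nonneg _

/-- the sum of the absolute values of the conjugates -/
noncomputable def bd {K : Type} [Field K] [NumberField K] (c : K) : ℝ := ∑ φ : K →+* ℂ, ‖φ c‖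

theorem bd_nonneg {K : Type} [Field K] [NumberField K] (c : K) : 0 ≤ bd c :=
  Finset.sum_nonneg fun _ _ => norm_nonneg _

theorem place_le {K M : Type} [Field K] [NumberField K] [Field M] [NumberField M] [Algebra K M]
    (v : InfinitePlace M) (c : K) : v.val (algebraMap K M c) ≤ bd c := by
  have h1 : v.val (algebraMap K M c) = ‖(v.embedding.comp (algebraMap K M)) c‖ := by
    have := InfinitePlace.norm_embedding_eq v (algebraMap K M c)
    rw [RingHom.comp_apply, this]
    rfl
  rw [h1]
  exact Finset.single_le_sum (f := fun φ : K →+* ℂ => ‖φ c‖) (fun _ _ => norm_nonneg _) (Finset.mem_univ _)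

theorem finite_le {M : Type} [Field M] [NumberField M] (v : AbsoluteValue M ℝ) (hv : IsFinitePlace v) {c : M}
    (hc : IsIntegral ℤ c) : v c ≤ 1 := by
  obtain ⟨w, rfl⟩ := (isFinitePlace_iff v).1 hv
  have h1 := FinitePlace.norm_le_one M w.maximalIdeal (⟨c, hc⟩ : 𝓞 M)
  rw [FinitePlace.norm_embedding_eq] at h1
  exact h1

/-- the uniform bound -/
theorem bound {K : Type} [Field K] [NumberField K] {ι : Type} [Finite ι] [Nonempty ι] (n : ℕ) (P : ι → K[X])
    (hP : ∀ j i, IsIntegral ℤ ((P j).coeff i)) : ∃ S : ℝ, 1 ≤ S ∧ ∀ (M : Type) [Field M] [NumberField M]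
      [Algebra K M], mulHeightBound (fun j => hom n ((P j).map (algebraMap K M))) ≤ S ^ finrank ℚ M := by
  cases nonempty_fintype ι
  obtain ⟨S, hS⟩ : ∃ S : ℝ, S = 1 + ∑ j, ∑ i ∈ Finset.range (n + 1), bd ((P j).coeff i) := ⟨_, rfl⟩
  have hS1 : 1 ≤ S := by
    rw [hS]
    have : 0 ≤ ∑ j, ∑ i ∈ Finset.range (n + 1), bd ((P j).coeff i) :=
      Finset.sum_nonneg fun _ _ => Finset.sum_nonneg fun _ _ => bd_nonneg _
    linarith
  refine ⟨S, hS1, fun M _ _ _ => ?_⟩
  rw [mulHeightBound_eq]
  have h1 : (∏ᶠ v : AdmissibleAbsValues.nonarchAbsVal (K := M), ⨆ j : ι,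
      max (⨆ s : (hom n ((P j).map (algebraMap K M))).support,
        v.val (MvPolynomial.coeff s (hom n ((P j).map (algebraMap K M))))) 1) = 1 := by
    refine finprod_eq_one_of_forall_eq_one fun v => ?_
    have h2 : ∀ j : ι, max (⨆ s : (hom n ((P j).map (algebraMap K M))).support,
        v.val (MvPolynomial.coeff s (hom n ((P j).map (algebraMap K M))))) 1 = 1 := by
      intro j
      refine max_eq_right (Real.iSup_le (fun s => ?_) zero_le_one)
      refine finite_le v.val v.2 ?_
      rw [coeff_hom]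
      refine IsIntegral.sum _ fun i _ => ?_
      split_ifs
      · rw [Polynomial.coeff_map]
        exact (hP j i).algebraMap
      · exact isIntegral_zero
    simp only [h2]
    exact ciSup_const
  rw [h1, mul_one, prod_archAbsVal_eq, ← totalWeight_eq_finrank, totalWeight_eq_sum_mult, ← Finset.prod_pow_eq_pow_sum]
  refine Finset.prod_le_prod (fun v _ => pow_nonneg (Real.iSup_nonneg fun j => Finset.sum_nonneg fun _ _ => v.val.nonneg _) _)
    fun v _ => pow_le_pow_left₀ (Real.iSup_nonneg fun j => Finset.sum_nonneg fun _ _ => v.val.nonneg _) ?_ _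
  refine Real.iSup_le (fun j => ?_) (by linarith)
  refine (arch_hom v.val n _).trans ?_
  have h3 : ∑ i ∈ Finset.range (n + 1), v.val (((P j).map (algebraMap K M)).coeff i) ≤
      ∑ i ∈ Finset.range (n + 1), bd ((P j).coeff i) :=
    Finset.sum_le_sum fun i _ => by
      rw [Polynomial.coeff_map]
      exact place_le v _
  have h4 : ∑ i ∈ Finset.range (n + 1), bd ((P j).coeff i) ≤ ∑ j, ∑ i ∈ Finset.range (n + 1), bd ((P j).coeff i) :=
    Finset.single_le_sum (f := fun j => ∑ i ∈ Finset.range (n + 1), bd ((P j).coeff i))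
      (fun _ _ => Finset.sum_nonneg fun _ _ => bd_nonneg _) (Finset.mem_univ j)
  rw [hS]
  linarith

/-- clearing denominators -/
theorem clear {K : Type} [Field K] [NumberField K] {ι : Type} [Finite ι] (P : ι → K[X]) :
    ∃ D : K, D ≠ 0 ∧ ∀ j i, IsIntegral ℤ ((C D * P j).coeff i) := by
  cases nonempty_fintype ι
  obtain ⟨n, hn⟩ : ∃ n : ℕ, n = Finset.univ.sup fun j => (P j).natDegree := ⟨_, rfl⟩
  obtain ⟨b, hb⟩ := IsLocalization.exist_integer_multiples_of_finite (nonZeroDivisors (𝓞 K))
    (fun x : ι × Fin (n + 1) => (P x.1).coeff x.2)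
  refine ⟨algebraMap (𝓞 K) K b, ?_, fun j i => ?_⟩
  · have := nonZeroDivisors.coe_ne_zero b
    simp
  · rw [Polynomial.coeff_C_mul]
    rcases le_or_gt i n with h | h
    · obtain ⟨c, hc⟩ := hb (j, ⟨i, by omega⟩)
      rw [Algebra.smul_def] at hc
      simp only at hc
      rw [← hc]
      exact RingOfIntegers.isIntegral_coe c
    · have h2 : (P j).natDegree ≤ n := by
        rw [hn]
        exact Finset.le_sup (f := fun j => (P j).natDegree) (Finset.mem_univ j)
      rw [Polynomial.coeff_eq_zero_of_natDegree_lt (by omega), mul_zero]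
      exact isIntegral_zero

/-- the Bezout identity with control of degrees -/
theorem bezout {K : Type} [Field K] {A B : K[X]} (h : IsCoprime A B) (hA : A ≠ 0) (hBA : B.natDegree ≤ A.natDegree)
    (P : K[X]) (hP : P.natDegree ≤ 2 * A.natDegree) : ∃ u v : K[X], u.natDegree ≤ A.natDegree ∧
      v.natDegree ≤ A.natDegree ∧ u * A + v * B = P := by
  obtain ⟨a, b, hab⟩ := h
  have hv : (P * b % A).natDegree ≤ A.natDegree := by
    by_cases h0 : A.natDegree = 0
    · rw [Polynomial.natDegree_eq_zero] at h0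
      obtain ⟨c, rfl⟩ := h0
      have hc : c ≠ 0 := by
        rintro rfl
        simp at hA
      have : P * b % C c = 0 := by
        rw [EuclideanDomain.mod_eq_zero]
        exact (Polynomial.isUnit_C.2 (isUnit_iff_ne_zero.2 hc)).dvd
      rw [this]
      simp
    · exact (Polynomial.natDegree_mod_lt _ h0).le
  have he : (P * a + (P * b / A) * B) * A + (P * b % A) * B = P := by
    have h1 := EuclideanDomain.div_add_mod (P * b) A
    have h2 : P = P * (a * A + b * B) := by rw [hab, mul_one]
    linear_combination B * h1 - h2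
  refine ⟨P * a + (P * b / A) * B, P * b % A, ?_, hv, he⟩
  by_cases hu : P * a + (P * b / A) * B = 0
  · rw [hu]
    simp
  have h3 : (P * a + (P * b / A) * B) * A = P - (P * b % A) * B := by
    linear_combination he
  have h4 := congrArg Polynomial.natDegree h3
  rw [Polynomial.natDegree_mul hu hA] at h4
  have h5 : (P - (P * b % A) * B).natDegree ≤ 2 * A.natDegree := by
    refine (Polynomial.natDegree_sub_le _ _).trans (max_le hP (Polynomial.natDegree_mul_le.trans ?_))
    omega
  omega

theorem bezout' {K : Type} [Field K] {A B : K[X]} (h : IsCoprime A B)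
    (P : K[X]) (hP : P.natDegree ≤ 2 * max A.natDegree B.natDegree) : ∃ u v : K[X],
      u.natDegree ≤ max A.natDegree B.natDegree ∧ v.natDegree ≤ max A.natDegree B.natDegree ∧ u * A + v * B = P := by
  have h0 : (A ≠ 0 ∧ B.natDegree ≤ A.natDegree) ∨ (B ≠ 0 ∧ A.natDegree ≤ B.natDegree) := by
    by_cases hA : A = 0
    · right
      subst hA
      refine ⟨?_, by simp⟩
      rintro rfl
      exact absurd (isCoprime_zero_left.1 h) (by simp)
    by_cases hB : B = 0
    · left
      refine ⟨hA, ?_⟩
      rw [hB]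
      simp
    rcases le_total B.natDegree A.natDegree with h1 | h1
    · exact Or.inl ⟨hA, h1⟩
    · exact Or.inr ⟨hB, h1⟩
  rcases h0 with ⟨hA, h1⟩ | ⟨hB, h1⟩
  · rw [max_eq_left h1] at hP ⊢
    exact bezout h hA h1 P hP
  · rw [max_eq_right h1] at hP ⊢
    obtain ⟨u, v, hu, hv, huv⟩ := bezout h.symm hB h1 P hP
    exact ⟨v, u, hv, hu, by rw [← huv]; ring⟩

theorem upper {K : Type} [Field K] [NumberField K] (A B : K[X]) (r : ℕ) : ∃ C : ℝ, ∀ (M : Type) [Field M]
    [NumberField M] [Algebra K M] (x : M), finrank K M = r →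
    logHeight₁ (aeval x A / aeval x B) ≤ (max A.natDegree B.natDegree : ℕ) * logHeight₁ x + C := by
  obtain ⟨N, hN⟩ : ∃ N, N = max A.natDegree B.natDegree := ⟨_, rfl⟩
  rw [← hN]
  obtain ⟨D, hD, hI⟩ := clear (K := K) (fun j : Fin 2 => (![A, B] : Fin 2 → K[X]) j)
  obtain ⟨S, hS1, hS⟩ := bound N (fun j : Fin 2 => C D * (![A, B] : Fin 2 → K[X]) j) hI
  refine ⟨Real.log (S ^ (finrank ℚ K * r)), fun M _ _ _ x hr => ?_⟩
  have : IsScalarTower ℚ K M := inferInstance
  have hfin : finrank ℚ M = finrank ℚ K * r := by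
    rw [← hr]
    exact (Module.finrank_mul_finrank ℚ K M).symm
  have h1 := logHeight_eval_le (N := N) (p := fun j : Fin 2 => hom N (((fun j : Fin 2 => C D * (![A, B] : Fin 2 → K[X]) j) j).map (algebraMap K M)))
    (fun j => hom_homogeneous _ _) ![x, 1]
  have hD' : algebraMap K M D ≠ 0 := by
    rw [Ne, FaithfulSMul.algebraMap_eq_zero_iff]
    exact hD
  have h2 : (fun j : Fin 2 => (hom N (((fun j : Fin 2 => C D * (![A, B] : Fin 2 → K[X]) j) j).map (algebraMap K M))).eval ![x, 1]) =
      algebraMap K M D • ![aeval x A, aeval x B] := by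
    have key : ∀ P : K[X], P.natDegree ≤ N → (hom N ((C D * P).map (algebraMap K M))).eval ![x, 1] =
        algebraMap K M D * aeval x P := by
      intro P hP
      rw [eval_hom]
      · rw [Polynomial.map_mul, Polynomial.map_C, Polynomial.eval_mul, Polynomial.eval_C, Polynomial.eval_map_algebraMap]
      · refine Polynomial.natDegree_map_le.trans ((Polynomial.natDegree_C_mul_le _ _).trans hP)
    funext j
    fin_cases j
    · simpa using key A (by omega)
    · simpa using key B (by omega)
  rw [h2, logHeight_smul_eq_logHeight _ hD', ← logHeight₁_div_eq_logHeight, ← logHeight₁_eq_logHeight] at h1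
  have h3 := hS M
  rw [hfin] at h3
  have h4 : Real.log (max (mulHeightBound (fun j : Fin 2 => hom N (((fun j : Fin 2 => C D * (![A, B] : Fin 2 → K[X]) j) j).map (algebraMap K M)))) 1) ≤
      Real.log (S ^ (finrank ℚ K * r)) := by
    refine Real.log_le_log (by positivity) ?_
    exact max_le h3 (one_le_pow₀ hS1)
  linarith

theorem lower {K : Type} [Field K] [NumberField K] (A B : K[X]) (h : IsCoprime A B) (r : ℕ) :
    ∃ C : ℝ, ∀ (M : Type) [Field M]
    [NumberField M] [Algebra K M] (x : M), finrank K M = r →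
    (max A.natDegree B.natDegree : ℕ) * logHeight₁ x ≤ logHeight₁ (aeval x A / aeval x B) + C := by
  obtain ⟨N, hN⟩ : ∃ N, N = max A.natDegree B.natDegree := ⟨_, rfl⟩
  obtain ⟨u₀, v₀, hu₀, hv₀, h₀⟩ := bezout' h (X ^ (2 * max A.natDegree B.natDegree)) (by simp)
  obtain ⟨u₁, v₁, hu₁, hv₁, h₁⟩ := bezout' h 1 (by simp)
  rw [← hN] at hu₀ hv₀ hu₁ hv₁ h₀ ⊢
  obtain ⟨w, hw⟩ : ∃ w : Fin 2 × Fin 2 → K[X], w = fun a => ![![u₀, v₀], ![u₁, v₁]] a.1 a.2 := ⟨_, rfl⟩
  obtain ⟨D, hD, hI⟩ := clear w
  obtain ⟨S, hS1, hS⟩ := bound N (fun j => C D * w j) hI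
  refine ⟨Real.log (2 ^ (finrank ℚ K * r) * S ^ (finrank ℚ K * r)), fun M _ _ _ x hr => ?_⟩
  have : IsScalarTower ℚ K M := inferInstance
  have hfin : finrank ℚ M = finrank ℚ K * r := by
    rw [← hr]
    exact (Module.finrank_mul_finrank ℚ K M).symm
  have hD' : algebraMap K M D ≠ 0 := by
    rw [Ne, FaithfulSMul.algebraMap_eq_zero_iff]
    exact hD
  have key : ∀ P : K[X], P.natDegree ≤ N → (hom N ((C D * P).map (algebraMap K M))).eval ![x, 1] =
      algebraMap K M D * aeval x P := by
    intro P hP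
    rw [eval_hom]
    · rw [Polynomial.map_mul, Polynomial.map_C, Polynomial.eval_mul, Polynomial.eval_C, Polynomial.eval_map_algebraMap]
    · refine Polynomial.natDegree_map_le.trans ((Polynomial.natDegree_C_mul_le _ _).trans hP)
  have e0 := congrArg (aeval x) h₀
  have e1 := congrArg (aeval x) h₁
  simp only [map_add, map_mul, map_pow, aeval_X, map_one] at e0 e1
  have h1 := logHeight_eval_ge (M := N) (N := N) (q := fun a : Fin 2 × Fin 2 => hom N ((C D * w a).map (algebraMap K M)))
    (fun j => hom_homogeneous _ _) (fun j : Fin 2 => MvPolynomial.C ((algebraMap K M D)⁻¹ * (![aeval x A, aeval x B] : Fin 2 → M) j))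
    (x := ![x, 1]) (by
      intro k
      rw [Fin.sum_univ_two]
      fin_cases k
      · have k1 := key u₀ hu₀
        have k2 := key v₀ hv₀
        simp only [hw, Fin.zero_eta, Fin.isValue, Matrix.cons_val_zero, Matrix.cons_val_one,
          MvPolynomial.eval_C] at k1 k2 ⊢
        rw [k1, k2, show N + N = 2 * N by ring, ← e0]
        field_simp
      · have k1 := key u₁ hu₁
        have k2 := key v₁ hv₁
        simp only [hw, Fin.mk_one, Fin.isValue, Matrix.cons_val_zero, Matrix.cons_val_one,
          MvPolynomial.eval_C, one_pow] at k1 k2 ⊢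
        rw [k1, k2, ← e1]
        field_simp)
  have h2 : (fun j : Fin 2 => (MvPolynomial.C ((algebraMap K M D)⁻¹ * (![aeval x A, aeval x B] : Fin 2 → M) j) : MvPolynomial (Fin 2) M).eval ![x, 1]) =
      (algebraMap K M D)⁻¹ • ![aeval x A, aeval x B] := by
    funext j
    rw [MvPolynomial.eval_C]
    rfl
  rw [h2, logHeight_smul_eq_logHeight _ (inv_ne_zero hD'), ← logHeight₁_div_eq_logHeight, ← logHeight₁_div_eq_logHeight,
    div_one] at h1
  have h3 := hS M
  rw [hfin] at h3
  have h4 : Real.log ((Nat.card (Fin 2) : ℝ) ^ totalWeight M * max (mulHeightBound (fun a : Fin 2 × Fin 2 => hom N ((C D * w a).map (algebraMap K M)))) 1) ≤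
      Real.log (2 ^ (finrank ℚ K * r) * S ^ (finrank ℚ K * r)) := by
    refine Real.log_le_log (by simp only [Nat.card_eq_fintype_card, Fintype.card_fin]; positivity) ?_
    rw [totalWeight_eq_finrank, hfin]
    simp only [Nat.card_eq_fintype_card, Fintype.card_fin, Nat.cast_ofNat]
    refine mul_le_mul_of_nonneg_left ?_ (by positivity)
    exact max_le h3 (one_le_pow₀ hS1)
  linarith

end Pool.Agent.N490.FR
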