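import Mathlib
import Pool.Agent.N751.FR.Stm
import Pool.Agent.N490.FR.HtPure

/-!
# FR/HT: the height of the value of a rational function, uniformly in the field
-/

set_option autoImplicit false

namespace Pool.Agent.N490.FR.Ht

theorem t : Pool.Agent.N751.FR.StmHt := by
  intro K _ _ A B h r
  obtain ⟨C₁, h₁⟩ := upper A B r
  obtain ⟨C₂, h₂⟩ := lower A B h r
  refine ⟨max C₁ C₂, fun M _ _ _ x hr _ => ⟨?_, ?_⟩⟩
  · have := h₁ M x hr
    have := le_max_left C₁ C₂
    linarith
  · have := h₂ M x hr
    have := le_max_right C₁ C₂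
    linarith

end Pool.Agent.N490.FR.Ht
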